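import Mathlib
import Pool.Agent.W854.IG.Main

set_option autoImplicit false

/-!
# The projection of the critical planar Ising plus phase onto a line is a Gibbs measure

At the critical inverse temperature `βc = log (1 + √2) / 2` and zero field the plus phase of the
nearest-neighbour Ising model on `ℤ²` exists, and its marginal on the line `ℤ × {0}` is consistent
with a uniformly non-null quasilocal specification.
-/

open MeasureTheory ProbabilityTheory Filter Topology Finset

noncomputable section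

namespace Pool.Agent.Results.MP_6ac95e_pr.CriticalLineGibbs

/-! ## The Ising model on the square lattice -/

/-- The spin `+1` (`true`) or `-1` (`false`). -/
def spin (b : Bool) : ℝ := if b then 1 else -1

/-- The box `[-n, n]²`. -/
def box (n : ℕ) : Finset (ℤ × ℤ) := Finset.Icc (-(n : ℤ)) n ×ˢ Finset.Icc (-(n : ℤ)) n

/-- The edge `(p, true)` joins `p` and `p + (1, 0)`, the edge `(p, false)` joins `p` and
`p + (0, 1)`; `other e` is the second end point. -/
def other (e : (ℤ × ℤ) × Bool) : ℤ × ℤ :=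
  if e.2 then (e.1.1 + 1, e.1.2) else (e.1.1, e.1.2 + 1)

/-- All nearest-neighbour edges of `ℤ²` with at least one end point in `box n`. -/
def edges (n : ℕ) : Finset ((ℤ × ℤ) × Bool) :=
  (box (n + 1) ×ˢ (Finset.univ : Finset Bool)).filter fun e => e.1 ∈ box n ∨ other e ∈ box n

/-- The configuration which is `σ` in the box and `+` outside. -/
def withPlus (n : ℕ) (σ : box n → Bool) : ℤ × ℤ → Bool :=
  fun p => if h : p ∈ box n then σ ⟨p, h⟩ else true

/-- Minus the energy `∑ σ_x σ_y` over the edges touching the box, plus boundary condition. -/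
def interaction (n : ℕ) (σ : box n → Bool) : ℝ :=
  ∑ e ∈ edges n, spin (withPlus n σ e.1) * spin (withPlus n σ (other e))

/-- The finite-volume Gibbs measure in `box n` with plus boundary condition, inverse temperature
`β` and zero field. -/
def plusMeasure (β : ℝ) (n : ℕ) : Measure (ℤ × ℤ → Bool) :=
  ∑ σ : box n → Bool,
    ENNReal.ofReal (Real.exp (β * interaction n σ) /
      ∑ σ' : box n → Bool, Real.exp (β * interaction n σ')) • Measure.dirac (withPlus n σ)

/-- `μ` is the plus phase at inverse temperature `β`: the weak limit of the finite-volume measures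
with plus boundary condition. -/
def IsPlusPhase (β : ℝ) (μ : Measure (ℤ × ℤ → Bool)) : Prop :=
  IsProbabilityMeasure μ ∧
    ∀ f : C(ℤ × ℤ → Bool, ℝ),
      Tendsto (fun n => ∫ σ, f σ ∂(plusMeasure β n)) atTop (𝓝 (∫ σ, f σ ∂μ))

/-- The critical inverse temperature. -/
def βc : ℝ := Real.log (1 + √2) / 2

/-! ## Gibbs measures on `{-1, +1}^ℤ` -/

/-- A specification on `{-1, +1}^ℤ`: a consistent family of proper probability kernels `γ Λ`,
`Λ ⊂ ℤ` finite, such that `γ Λ η` depends on `η` outside `Λ` only. -/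
structure IsSpecification (γ : Finset ℤ → Kernel (ℤ → Bool) (ℤ → Bool)) : Prop where
  markov : ∀ Λ, IsMarkovKernel (γ Λ)
  outside : ∀ Λ (η η' : ℤ → Bool), (∀ i, i ∉ Λ → η i = η' i) → γ Λ η = γ Λ η'
  proper : ∀ Λ (η : ℤ → Bool), γ Λ η {ω | ∀ i, i ∉ Λ → ω i = η i} = 1
  consistent : ∀ Λ Δ, Λ ⊆ Δ → ∀ η : ℤ → Bool, (γ Δ η).bind (γ Λ) = γ Δ η

/-- The specification is uniformly non-null: for every finite `Λ` the probability of every pattern
on `Λ` is bounded below uniformly in the boundary condition. -/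
def UniformlyNonNull (γ : Finset ℤ → Kernel (ℤ → Bool) (ℤ → Bool)) : Prop :=
  ∀ Λ, ∃ c : ℝ, 0 < c ∧ ∀ η ζ : ℤ → Bool, c ≤ (γ Λ η).real {ω | ∀ i ∈ Λ, ω i = ζ i}

/-- The specification is quasilocal: each kernel is continuous in the boundary condition. -/
def Quasilocal (γ : Finset ℤ → Kernel (ℤ → Bool) (ℤ → Bool)) : Prop :=
  ∀ Λ, ∀ f : C(ℤ → Bool, ℝ), Continuous fun η : ℤ → Bool => ∫ ω, f ω ∂(γ Λ η)

/-- `ν` is a Gibbs measure: it is consistent with a uniformly non-null quasilocal specification. -/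
def IsGibbs (ν : Measure (ℤ → Bool)) : Prop :=
  ∃ γ : Finset ℤ → Kernel (ℤ → Bool) (ℤ → Bool),
    IsSpecification γ ∧ UniformlyNonNull γ ∧ Quasilocal γ ∧ ∀ Λ, ν.bind (γ Λ) = ν

/-- The restriction of a configuration to the line `ℤ × {0}`. -/
def toLine (σ : ℤ × ℤ → Bool) : ℤ → Bool := fun i => σ (i, 0)

/-! ## The theorem -/

theorem plusMeasure_eq (β : ℝ) (n : ℕ) :
    plusMeasure β n = Pool.Agent.W854.IG.plusMeasure β n := by
  unfold Pool.Agent.W854.IG.plusMeasure
  rw [Pool.Agent.W854.IG.sum_cf, Pool.Agent.W854.IG.sum_cf]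
  rfl

theorem isPlusPhase_iff (β : ℝ) (μ : Measure (ℤ × ℤ → Bool)) :
    IsPlusPhase β μ ↔ Pool.Agent.W854.IG.IsPlusPhase β μ := by
  unfold IsPlusPhase Pool.Agent.W854.IG.IsPlusPhase
  simp only [plusMeasure_eq]

theorem isGibbs_of {ν : Measure (ℤ → Bool)} (h : Pool.Agent.W854.IG.IsGibbs ν) : IsGibbs ν := by
  obtain ⟨γ, h1, h2, h3, h4⟩ := h
  exact ⟨γ, ⟨h1.prob, h1.outside, h1.proper, h1.consistent⟩, h2, h3, h4⟩

/-- **Theorem.** At the critical point the plus phase of the planar Ising model exists and is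
unique, and its projection onto the line `ℤ × {0}` is a Gibbs measure. -/
theorem result :
    ∃ μ : Measure (ℤ × ℤ → Bool), IsPlusPhase βc μ ∧ (∀ μ', IsPlusPhase βc μ' → μ' = μ) ∧
      IsGibbs (μ.map toLine) := by
  have hβ : 0 ≤ Pool.Agent.W854.IG.βc := Pool.Agent.W854.IG.βc_nonneg
  obtain ⟨μ, hμ⟩ := Pool.Agent.W854.IG.plusPhase_exists hβ
  refine ⟨μ, (isPlusPhase_iff _ _).2 hμ, ?_, isGibbs_of (Pool.Agent.W854.IG.gibbs hμ)⟩
  intro μ' hμ'
  exact Pool.Agent.W854.IG.plusPhase_unique hμ ((isPlusPhase_iff _ _).1 hμ')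

end Pool.Agent.Results.MP_6ac95e_pr.CriticalLineGibbs
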